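import Pool.Agent.H97.HV.Targets
import Pool.Agent.H65.HD.SC
import Pool.Agent.H17.HD.HB

/-!
# Row FIL of the board hov
-/

open Ordinal Cardinal Order Set
open scoped ZFSet

universe u

namespace Pool.Agent.H92.HV

open _root_.HD HD.PRK HD.HV

theorem pf_FIL (h : T_MEA.{u}) : T_FIL.{u} := by
  intro δ hext hA K hK hδK γ hγ M hM hMδ
  obtain ⟨D, hD, hDr, hDs, hD0⟩ : ∃ D : Cardinal.{u}, δ = D.ord ∧ D.IsRegular ∧
      D.IsStrongLimit ∧ ℵ₀ < D := by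
    obtain ⟨η, -, θ, j, h⟩ := HD.All.xa δ hext 0
    exact HD.All.xb δ η θ j h
  subst hD
  have hDK : D < K := Cardinal.ord_lt_ord.1 hδK
  have hMD : M < D := Cardinal.ord_lt_ord.1 hMδ
  have hK0 : ℵ₀ < K := hD0.trans hDK
  obtain ⟨en, hen⟩ := HD.All.en
  have hNS := HD.All.xl D.ord hext hA M K hM (Cardinal.ord_lt_ord.2 hMD) hK hδK
  have hNSX := HD.All.ha D.ord M.ord K.ord hNS
  have hat := HD.All.hb en hen D M K hDr hDs hD0 hM hMD hK hDK hNSX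
  obtain ⟨τ, hτ, e, he, hnull⟩ := HD.All.hc en hen D M K hDr hD0 hM hMD hK hDK hNSX hat
  refine ⟨τ, hτ, fun i => en (e i), fun i hi => ⟨(hen.od _).2 ⟨e i, rfl⟩, (he i hi).pos,
    h en hen M K hK hK0 (e i) (he i hi) γ hγ⟩, ?_⟩
  exact hnull

end Pool.Agent.H92.HV
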